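import Pool.Agent.N201.RC.Inj
import Pool.Agent.N201.RC.Sph
import Pool.Agent.N201.RC.Prop

/-!
# The relative Cannon conjecture: equivariant maps to the sphere at infinity

Let `G` act on a compact metric space `X` as a convergence group (for instance `X` the Bowditch
boundary of a relatively hyperbolic group), let `ρ` be any action of `G` by isometries of the
hyperbolic space `H ^ (n + 1)` (not assumed to be discrete or faithful) and let `f : X → S ^ n` be
a continuous equivariant map.

* If `f` takes at least three values then `ρ` is properly discontinuous.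
* If all orbits in `X` are dense, every point of `X` is a conical limit point or a parabolic point
  and `f` is injective on some nonempty open set, then `f` is an embedding.
* If moreover `X = S ^ n`, then `f` is a homeomorphism.
* If `X = S ^ n`, `n ≥ 1`, and the action is cocompact on triples, then it is enough that `f` is
  not null-homotopic: then `ρ` is properly discontinuous and cocompact and `f` is a homeomorphism.
-/

set_option autoImplicit false

open Filter Topology Set Pool.Agent.TH289.C Pool.Agent.N201.RC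

namespace Pool.Agent.Results.MP_04c03c_gt.EquivariantMaps

/-- `ρ` is an action by isometries of hyperbolic space `H ^ (n + 1)` (linear maps of Minkowski
space which preserve the Lorentz form and the upper sheet), and `f` is an equivariant map to its
boundary sphere. -/
def Semiconj {n : ℕ} {G : Type} [Group G] {X : Type} [TopologicalSpace X] (α : Action G X)
    (ρ : LinAction G (Mink n)) (f : X → Sn n) : Prop :=
  (∀ g v, lor (ρ.map g v) = lor v) ∧ (∀ g, 0 < time (ρ.map g (origin n))) ∧
    ∀ g x, ∃ c : ℝ, 0 < c ∧ ρ.map g (light (f x)) = c • light (f (α.map g x))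

/-- Properness. -/
theorem properness {G : Type} [Group G] {X : Type} [MetricSpace X] (α : Action G X)
    (hα : Converges α) {n : ℕ} (ρ : LinAction G (Mink n)) (f : X → Sn n) (hf : Continuous f)
    (hs : Semiconj α ρ f) (h3 : ∃ x y z, f x ≠ f y ∧ f y ≠ f z ∧ f x ≠ f z) :
    ActsProperly (HypSpace n) (fun g v => ρ.map g v) := by
  exact prop_hyp (E := Euc n) (α := α.hom) hα ρ.hom (fun g => ⟨fun v => hs.1 g v, hs.2.1 g⟩) f hf
    h3 hs.2.2

/-- The equivariance, for the boundary action. -/
theorem equi {n : ℕ} {G : Type} [Group G] {X : Type} [TopologicalSpace X] (α : Action G X)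
    (ρ : LinAction G (Mink n)) (f : X → Sn n) (hs : Semiconj α ρ f) {x y : X} (hxy : f x = f y)
    (g : G) : f (α.map g x) = f (α.map g y) := by
  obtain ⟨c, hc, h1⟩ := hs.2.2 g x
  obtain ⟨d, hd, h2⟩ := hs.2.2 g y
  rw [hxy, h2] at h1
  have h3 : d * 1 = c * 1 := congrArg (fun v : Mink n => (show ℝ × Euc n from v).1) h1
  have h4 : d = c := by linarith
  subst h4
  have h5 : d • (show Sph (Euc n) from f (α.map g y)).1 =
      d • (show Sph (Euc n) from f (α.map g x)).1 :=
    congrArg (fun v : Mink n => (show ℝ × Euc n from v).2) h1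
  exact (Subtype.ext (smul_right_injective _ hd.ne' h5)).symm

/-- `ρ` is a linear action preserving the strictly convex cone `C`, and `f` is an equivariant map
to the boundary of the domain `P(C)`. -/
def ConeSemiconj {G : Type} [Group G] {X : Type} [TopologicalSpace X] (α : Action G X) {V : Type}
    [NormedAddCommGroup V] [NormedSpace ℝ V] (C : Set V) (τ : V →L[ℝ] ℝ) (ρ : LinAction G V)
    (f : X → Bd C τ) : Prop :=
  IsStrictCone C τ ∧ (∀ g, ∀ v ∈ C, ρ.map g v ∈ C) ∧
    ∀ g x, ∃ c : ℝ, 0 < c ∧ ρ.map g (f x).1 = c • (f (α.map g x)).1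

/-- Properness, projective version. -/
theorem cone_properness {G : Type} [Group G] {X : Type} [MetricSpace X] (α : Action G X)
    (hα : Converges α) {V : Type} [NormedAddCommGroup V] [NormedSpace ℝ V]
    [FiniteDimensional ℝ V] (C : Set V) (τ : V →L[ℝ] ℝ) (ρ : LinAction G V)
    (f : X → Bd C τ) (hf : Continuous f)
    (hs : ConeSemiconj α C τ ρ f) (h3 : ∃ x y z, f x ≠ f y ∧ f y ≠ f z ∧ f x ≠ f z) :
    ActsProperly (Dom C τ) (projAct τ ρ) := by
  obtain ⟨x, y, z, hxy, hyz, hxz⟩ := h3
  intro K hKH hK
  have hE : IsEquivariant α.hom C τ ρ.hom (fun x => (f x : V)) := by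
    refine ⟨continuous_subtype_val.comp hf, fun x => (f x).2, fun g v hv => hs.2.1 g v hv,
      fun g x => ?_⟩
    obtain ⟨c, hc, h1⟩ := hs.2.2 g x
    change (f (α.map g x) : V) = proj τ (ρ.map g (f x).1)
    rw [h1, proj_smul hc.ne', proj_of_one (f (α.map g x)).2.2.2]
  have hne : ∀ x y, f x ≠ f y → (f x : V) ≠ f y := fun x y h h' => h (Subtype.ext h')
  have hz : ∀ i j : Fin 3, i ≠ j → (f (![x, y, z] i) : V) ≠ f (![x, y, z] j) := by
    intro i j hij
    fin_cases i <;> fin_cases j
    · exact absurd rfl hij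
    · exact hne _ _ hxy
    · exact hne _ _ hxz
    · exact hne _ _ hxy.symm
    · exact absurd rfl hij
    · exact hne _ _ hyz
    · exact hne _ _ hxz.symm
    · exact hne _ _ hyz.symm
    · exact absurd rfl hij
  exact proper (α := α.hom) (ρ := ρ.hom) hα hs.1 hE hz hK hKH

theorem cone_equi {G : Type} [Group G] {X : Type} [TopologicalSpace X] (α : Action G X)
    {V : Type} [NormedAddCommGroup V] [NormedSpace ℝ V]
    (C : Set V) (τ : V →L[ℝ] ℝ) (ρ : LinAction G V)
    (f : X → Bd C τ) (hs : ConeSemiconj α C τ ρ f) {x y : X} (hxy : f x = f y)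
    (g : G) : f (α.map g x) = f (α.map g y) := by
  obtain ⟨c, hc, h1⟩ := hs.2.2 g x
  obtain ⟨d, hd, h2⟩ := hs.2.2 g y
  rw [hxy, h2] at h1
  have h3 := congrArg τ h1
  rw [map_smul, map_smul, (f (α.map g x)).2.2.2, (f (α.map g y)).2.2.2] at h3
  have h4 : d = c := by simpa using h3
  subst h4
  exact (Subtype.ext (smul_right_injective _ hd.ne' h1)).symm

/-- A continuous equivariant map with three values: `ρ` is properly discontinuous. -/
def ThreeValues : Prop :=
  ∀ (G : Type) [Group G] (X : Type) [MetricSpace X] [CompactSpace X] (α : Action G X),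
    Converges α → ∀ (n : ℕ) (ρ : LinAction G (Mink n)) (f : X → Sn n), Continuous f →
    Semiconj α ρ f → (∃ x y z, f x ≠ f y ∧ f y ≠ f z ∧ f x ≠ f z) →
    ActsProperly (HypSpace n) (fun g v => ρ.map g v)

/-- A minimal convergence action all of whose points are conical or parabolic. -/
def RelHypLike {G : Type} [Group G] {X : Type} [TopologicalSpace X] (α : Action G X) : Prop :=
  Converges α ∧ Minimal α ∧ ∀ ξ, Conical α ξ ∨ Parabolic α ξ

/-- `f` is injective on some nonempty open set. -/
def InjSomewhere {X Y : Type} [TopologicalSpace X] (f : X → Y) : Prop :=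
  ∃ U : Set X, IsOpen U ∧ U.Nonempty ∧ InjOn f U

/-- The relative case, for a compact space `X` without isolated points. -/
def RelativeSpace : Prop :=
  ∀ (G : Type) [Group G] (X : Type) [MetricSpace X] [CompactSpace X] (α : Action G X),
    RelHypLike α → Nonempty X → (∀ x : X, (𝓝[≠] x).NeBot) →
    ∀ (n : ℕ) (ρ : LinAction G (Mink n)) (f : X → Sn n), Continuous f →
    Semiconj α ρ f → InjSomewhere f →
    IsClosedEmbedding f ∧ ActsProperly (HypSpace n) (fun g v => ρ.map g v)

/-- The relative case, for a sphere. -/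
def RelativeSphere : Prop :=
  ∀ (G : Type) [Group G] (n : ℕ) (α : Action G (Sn (n + 1))), RelHypLike α →
    ∀ (ρ : LinAction G (Mink (n + 1))) (f : Sn (n + 1) → Sn (n + 1)), Continuous f →
    Semiconj α ρ f → InjSomewhere f →
    IsHomeomorph f ∧ ActsProperly (HypSpace (n + 1)) (fun g v => ρ.map g v)

/-- The absolute case. -/
def AbsoluteSphere : Prop :=
  ∀ (G : Type) [Group G] (n : ℕ) (α : Action G (Sn (n + 1))), Converges α →
    TripleCocompact α → ∀ (ρ : LinAction G (Mink (n + 1))) (f : C(Sn (n + 1), Sn (n + 1))),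
    ¬ f.Nullhomotopic → Semiconj α ρ f →
    IsHomeomorph f ∧ ActsProperly (HypSpace (n + 1)) (fun g v => ρ.map g v) ∧
      ActsCocompactly (HypSpace (n + 1)) (fun g v => ρ.map g v)

/-- The relative case, for strictly convex cones. -/
def RelativeCone : Prop :=
  ∀ (G : Type) [Group G] (V : Type) [NormedAddCommGroup V] [NormedSpace ℝ V]
    [FiniteDimensional ℝ V] (C : Set V) (τ : V →L[ℝ] ℝ) (ρ : LinAction G V)
    (X : Type) [MetricSpace X] [CompactSpace X] (α : Action G X),
    RelHypLike α → Nonempty X → (∀ x : X, (𝓝[≠] x).NeBot) →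
    ∀ f : X → Bd C τ, Continuous f → ConeSemiconj α C τ ρ f → InjSomewhere f →
    IsClosedEmbedding f ∧ ActsProperly (Dom C τ) (projAct τ ρ)

/-- The absolute case, for strictly convex cones. -/
def AbsoluteCone : Prop :=
  ∀ (G : Type) [Group G] (V : Type) [NormedAddCommGroup V] [NormedSpace ℝ V]
    [FiniteDimensional ℝ V] (C : Set V) (τ : V →L[ℝ] ℝ) (ρ : LinAction G V)
    (n : ℕ) (α : Action G (Sn (n + 1))), Converges α → TripleCocompact α →
    ∀ f : C(Sn (n + 1), Bd C τ), ¬ f.Nullhomotopic → ConeSemiconj α C τ ρ f →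
    IsHomeomorph f ∧ ActsProperly (Dom C τ) (projAct τ ρ) ∧
      ActsCocompactly (Dom C τ) (projAct τ ρ)

/-- Main result. -/
theorem result : ThreeValues ∧ RelativeSpace ∧ RelativeSphere ∧ AbsoluteSphere ∧ RelativeCone ∧
    AbsoluteCone := by
  refine ⟨?_, ?_, ?_, ?_, ?_, ?_⟩
  · intro G _ X _ _ α hα n ρ f hf hs
    exact properness α hα ρ f hf hs
  · intro G _ X _ _ α hcv hne hX n ρ f hf hs hU
    obtain ⟨hα, hm, hcp⟩ := hcv
    obtain ⟨U, hU, hUne, hi⟩ := hU
    have hinf : Infinite X := infinite_X hX
    have hin := inj hα hm hcp f hf (fun g x y h => equi α ρ f hs h g) hU hUne hi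
    refine ⟨hf.isClosedEmbedding hin, ?_⟩
    refine properness α hα ρ f hf hs ?_
    set e := Infinite.natEmbedding X
    exact ⟨e 0, e 1, e 2, fun h => by simpa using e.injective (hin h),
      fun h => by simpa using e.injective (hin h), fun h => by simpa using e.injective (hin h)⟩
  · intro G _ n α hcv ρ f hf hs hU
    obtain ⟨hα, hm, hcp⟩ := hcv
    obtain ⟨U, hU, hUne, hi⟩ := hU
    have hcS : CompactSpace (Sn (n + 1)) :=
      isCompact_iff_compactSpace.1 (isCompact_sphere (0 : Euc (n + 1)) 1)
    have hne : Nonempty (Sn (n + 1)) := ⟨hUne.some⟩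
    have hps : PreconnectedSpace (Sn (n + 1)) := by
      have hrank : 1 < Module.rank ℝ (Euc (n + 1)) := by
        rw [← Module.finrank_eq_rank]
        exact_mod_cast (show 1 < Module.finrank ℝ (Euc (n + 1)) by simp)
      exact Subtype.preconnectedSpace (isPreconnected_sphere hrank 0 1)
    have hnt : Nontrivial (Sn (n + 1)) := by
      obtain ⟨x⟩ := hne
      obtain ⟨y, hy⟩ := exists_ne_sph (E := Euc (n + 1)) x
      exact ⟨x, y, hy⟩
    have hinf : Infinite (Sn (n + 1)) := by
      have := (isPreconnected_univ (α := Sn (n + 1))).infinite_of_nontrivial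
        (Set.nontrivial_univ)
      exact Set.infinite_univ_iff.1 this
    have hin := inj hα hm hcp f hf (fun g x y h => equi α ρ f hs h g) hU hUne hi
    refine ⟨?_, ?_⟩
    · rw [isHomeomorph_iff_continuous_bijective]
      exact ⟨hf, hin, surj_sph (E := Euc (n + 1)) f hf hin⟩
    · refine properness α hα ρ f hf hs ?_
      set e := Infinite.natEmbedding (Sn (n + 1))
      exact ⟨e 0, e 1, e 2, fun h => by simpa using e.injective (hin h),
        fun h => by simpa using e.injective (hin h), fun h => by simpa using e.injective (hin h)⟩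
  · intro G _ n α hα hco ρ f hess hs
    obtain ⟨h1, h2, h3⟩ := main_hyp (E := Euc (n + 1)) (by simp) (α := α.hom) hα hco ρ.hom
      (fun g => ⟨fun v => hs.1 g v, hs.2.1 g⟩) f hess hs.2.2
    exact ⟨h3, h1, h2⟩
  · intro G _ V _ _ _ C τ ρ X _ _ α hcv hne hX f hf hs hU
    obtain ⟨hα, hm, hcp⟩ := hcv
    obtain ⟨U, hU, hUne, hi⟩ := hU
    have hinf : Infinite X := infinite_X hX
    have hin := inj hα hm hcp f hf (fun g x y h => cone_equi α C τ ρ f hs h g) hU hUne hi
    refine ⟨hf.isClosedEmbedding hin, ?_⟩
    refine cone_properness α hα C τ ρ f hf hs ?_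
    set e := Infinite.natEmbedding X
    exact ⟨e 0, e 1, e 2, fun h => by simpa using e.injective (hin h),
      fun h => by simpa using e.injective (hin h), fun h => by simpa using e.injective (hin h)⟩
  · intro G _ V _ _ _ C τ ρ n α hα hco f hess hs
    obtain ⟨h1, h2, h3⟩ := main (E := Euc (n + 1)) (by simp) (α := α.hom) (ρ := ρ.hom) hα hco
      hs.1 hs.2.1 f hess hs.2.2
    exact ⟨h3, h1, h2⟩

end Pool.Agent.Results.MP_04c03c_gt.EquivariantMaps
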